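import Pool.Agent.Selb.DirC

/-!
# Selberg's Conjecture A for almost periodic prime coefficients
-/

set_option autoImplicit false

open Complex Metric Filter Topology LSeries

namespace Pool.Agent.Results.MP_d8a033_nt.AlmostPeriodic

/-- `F(s) = ∑ a n n^{-s}` is an element of the Selberg class and `b n` are the coefficients of
`log F(s)`: word for word the hypotheses of the frozen statement `S18645`. -/
def InSelberg (a b : ℕ → ℂ) : Prop :=
  a 1 = 1 ∧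
  (∀ ε : ℝ, 0 < ε → ∃ C : ℝ, ∀ n : ℕ, 1 ≤ n → ‖a n‖ ≤ C * (n : ℝ) ^ ε) ∧
  ((∀ n : ℕ, ¬ IsPrimePow n → b n = 0) ∧
    (∃ θ : ℝ, θ < 1 / 2 ∧ ∃ C : ℝ, ∀ n : ℕ, ‖b n‖ ≤ C * (n : ℝ) ^ θ) ∧
    ∀ s : ℂ, 1 < s.re → LSeries a s = Complex.exp (LSeries b s)) ∧
  (∃ m : ℕ, ∃ G : ℂ → ℂ, Differentiable ℂ G ∧
    (∃ A B : ℝ, ∀ z : ℂ, ‖G z‖ ≤ A * Real.exp (‖z‖ ^ B)) ∧
    (∀ s : ℂ, 1 < s.re → G s = (s - 1) ^ m * LSeries a s) ∧
    ∃ Q : ℝ, 0 < Q ∧ ∃ k : ℕ, ∃ lam : Fin k → ℝ, ∃ μ : Fin k → ℂ,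
      (∀ j, 0 < lam j) ∧ (∀ j, 0 ≤ (μ j).re) ∧
      ∃ ω : ℂ, ‖ω‖ = 1 ∧
        ∀ s : ℂ, s ≠ 1 → s ≠ 0 →
          (∀ j, ∀ t : ℕ, (lam j : ℂ) * s + μ j ≠ -(t : ℂ)) →
          (∀ j, ∀ t : ℕ, (lam j : ℂ) * (1 - starRingEnd ℂ s) + μ j ≠ -(t : ℂ)) →
          (Q : ℂ) ^ s * (∏ j, Complex.Gamma ((lam j : ℂ) * s + μ j)) *
              (G s / (s - 1) ^ m) =
            ω * starRingEnd ℂ
              ((Q : ℂ) ^ (1 - starRingEnd ℂ s) *
                (∏ j, Complex.Gamma ((lam j : ℂ) * (1 - starRingEnd ℂ s) + μ j)) *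
                (G (1 - starRingEnd ℂ s) / ((1 - starRingEnd ℂ s) - 1) ^ m)))

/-- Over the primes, `x p = u p + v p` with `∑_{p ≤ N} |u p|² p^{1 - 2σ} log p = O(log N)` and
`∑_p |v p| p^{-σ} log p < ∞`. -/
def SmallAt (σ : ℝ) (x : ℕ → ℂ) : Prop :=
  ∃ u v : ℕ → ℂ, (∀ p : ℕ, p.Prime → x p = u p + v p) ∧
    (∃ C : ℝ, ∀ N : ℕ, 2 ≤ N → ∑ p ∈ (Finset.range (N + 1)).filter Nat.Prime,
      ‖u p‖ ^ 2 * (p : ℝ) ^ (1 - 2 * σ) * Real.log p ≤ C * Real.log N) ∧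
    Summable (fun p : ℕ => if p.Prime then ‖v p‖ * (p : ℝ) ^ (-σ) * Real.log p else 0)

/-- The Euler factor at the prime `r`, `exp (∑_k b (r ^ k) r^{-ks})`, is a rational function of
`r^{-s}` (a quotient of products of factors `1 - y r^{-s}`). -/
def RationalAt (b : ℕ → ℂ) (r : ℕ) : Prop :=
  ∃ S T : Multiset ℂ, ∀ k : ℕ, 1 ≤ k → (k : ℂ) * b (r ^ k) =
    (S.map (fun y => y ^ k)).sum - (T.map (fun y => y ^ k)).sum

section

variable {q : ℕ} {K : Type} [Fintype K]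

/-- The order at `z` (negative at a pole) of `L(s, χ*)`, `χ*` the primitive character inducing
`χ`. -/
noncomputable def orderL [NeZero q] (χ : DirichletCharacter ℂ q) (z : ℂ) : ℤ :=
  haveI : NeZero χ.conductor := ⟨χ.conductor_ne_zero⟩
  (meromorphicOrderAt χ.primitiveCharacter.LFunction z).untop₀

/-- For every shift and every parity, at most one nonprincipal character occurs with nonzero
exponent. -/
def OnePerParity (c : K → DirichletCharacter ℂ q → ℚ) : Prop :=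
  ∀ (k : K) (χ ψ : DirichletCharacter ℂ q), χ ≠ 1 → ψ ≠ 1 → c k χ ≠ 0 → c k ψ ≠ 0 →
    (χ.Even ↔ ψ.Even) → χ = ψ

open Classical in
/-- The group of integral vectors `v k χ` generated by the vectors of orders of the functions
`L(s + i τ k, χ*)` at the points `z`, and by the indicators of the sets
`{(k, χ) | χ(r) r^{-i τ k} = y}` for the primes `r` not dividing `q` at which the Euler factor of
`F` is rational. -/
def lattice [NeZero q] (b : ℕ → ℂ) (τ : K → ℝ) :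
    AddSubgroup (K × DirichletCharacter ℂ q → ℤ) :=
  AddSubgroup.closure
    {v | (∃ z : ℂ, ∀ k χ, v (k, χ) = orderL χ (z + τ k * I)) ∨
      ∃ (r : ℕ) (y : ℂ), r.Prime ∧ r.Coprime q ∧ RationalAt b r ∧
        ∀ k χ, v (k, χ) = if χ (r : ZMod q) * (r : ℂ) ^ (-(τ k * I)) = y then 1 else 0}

/-- Every pair that occurs with nonzero exponent is singled out, among those that occur, by a
vector of the lattice (for instance `L(s + i τ k, χ*)` has a simple zero which is not a zero of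
the other functions that occur). -/
def Isolated [NeZero q] (b : ℕ → ℂ) (τ : K → ℝ) (c : K → DirichletCharacter ℂ q → ℚ) : Prop :=
  ∀ k χ, c k χ ≠ 0 → ∃ v ∈ lattice (q := q) b τ, v (k, χ) = 1 ∧
    ∀ l ψ, (l, ψ) ≠ (k, χ) → c l ψ ≠ 0 → v (l, ψ) = 0

end

open Classical in
/-- **Conjecture A for almost periodic prime coefficients.** -/
theorem result (a b : ℕ → ℂ) (hF : InSelberg a b) (q : ℕ) [NeZero q] (K : Type) [Fintype K]
    (τ : K → ℝ) (hτ : Function.Injective τ) (f : K → ZMod q → ℂ)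
    (h1 : SmallAt (1 / 2) (fun p => a p - ∑ k, f k (p : ZMod q) * (p : ℂ) ^ (-(τ k * I))))
    (h2 : SmallAt 1 (fun p => a (p ^ 2))) :
    ∃ c : K → DirichletCharacter ℂ q → ℚ,
      (∀ k, ∀ u : ZMod q, IsUnit u → f k u = ∑ χ, (c k χ : ℂ) * χ u) ∧
      (∀ n : ℕ, b n * (Real.log n : ℂ) = ∑ k, ∑ χ, (c k χ : ℂ) *
        (χ.primitiveCharacter (n : ZMod χ.conductor) *
          (ArithmeticFunction.vonMangoldt n : ℂ) * (n : ℂ) ^ (-(τ k * I)))) ∧
      (∃ C : ℝ, ∀ Y : ℝ, 3 ≤ Y →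
        |(∑ p ∈ (Finset.range (⌊Y⌋₊ + 1)).filter Nat.Prime, ‖a p‖ ^ 2 / (p : ℝ)) -
          ((∑ k, ∑ χ, (c k χ) ^ 2 : ℚ) : ℝ) * Real.log (Real.log Y)| ≤ C) ∧
      (∀ k, ∃ n : ℤ, c k 1 = n ∧ (τ k ≠ 0 → n ≤ 0)) ∧
      (∀ k, ∃ n : ℕ, ∑ χ with (χ ≠ 1 ∧ χ.Even), c k χ = n) ∧
      (∀ k, ∃ n : ℕ, ∑ χ with χ.Odd, c k χ = n) ∧
      (∀ v ∈ lattice b τ, ∃ n : ℤ, ∑ k, ∑ χ, c k χ * v (k, χ) = n) ∧
      ((q ∣ 4 ∨ q ∣ 6 ∨ OnePerParity c ∨ Isolated b τ c ∨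
          (IsCyclic (ZMod q)ˣ ∧ ∀ p : ℕ, p.Prime → p.Coprime q → RationalAt b p)) →
        (∀ k χ, ∃ n : ℤ, c k χ = n) ∧
        ∃ nF : ℤ, ∃ C : ℝ, ∀ Y : ℝ, 3 ≤ Y →
          |(∑ p ∈ (Finset.range (⌊Y⌋₊ + 1)).filter Nat.Prime, ‖a p‖ ^ 2 / (p : ℝ)) -
            (nF : ℝ) * Real.log (Real.log Y)| ≤ C) := by
  obtain ⟨ha1, hram, ⟨hsupp, hbd, heul⟩, m, G, hGd, hGo, hGc, Q, hQ, k, lam, μ, hlam, hmu, ω,
    hω, hfe⟩ := hF
  have hS : Selb.InS a b := ⟨⟨ha1, hram, hsupp, hbd, heul⟩, m, G, Q, k, lam, μ, ω,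
    ⟨hGd, hGo, hGc, hQ, hlam, hmu, hω, hfe⟩⟩
  clear ha1 hram hsupp hbd heul hGd hGo hGc hQ hlam hmu hω hfe
  choose c0 hc0 using fun k => Selb.exists_coeff (f k)
  set θ : K × DirichletCharacter ℂ q → ℝ := fun j => τ j.1 with hθ
  set X : K × DirichletCharacter ℂ q → DirichletCharacter ℂ q := fun j => j.2 with hX
  set c : K × DirichletCharacter ℂ q → ℂ := fun j => c0 j.1 j.2 with hc
  have hinj : Function.Injective (fun j => (θ j, X j)) := by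
    rintro ⟨k, χ⟩ ⟨l, ψ⟩ h
    simp only [hθ, hX, Prod.mk.injEq] at h
    rw [hτ h.1, h.2]
  have h1' : Selb.SmallAt (1 / 2)
      (fun p => a p - ∑ j, c j * (X j (p : ZMod q) * Selb.osc (θ j) p)) := by
    refine Selb.SmallAt.of_eq_off (x := fun p => a p - ∑ k, f k (p : ZMod q) * (p : ℂ) ^ (-(τ k * I)))
      h1 (NeZero.ne q) (fun p hp hpq => ?_)
    have hpc : p.Coprime q := (Nat.Prime.coprime_iff_not_dvd hp).2 hpq
    congr 1
    rw [Fintype.sum_prod_type]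
    refine Finset.sum_congr rfl (fun k _ => ?_)
    rw [hc0 k _ ((ZMod.isUnit_iff_coprime p q).2 hpc), Finset.sum_mul]
    refine Finset.sum_congr rfl (fun χ _ => ?_)
    simp only [hc, hX, hθ, Selb.osc]
    ring
  have hs := Selb.dir_relation (θ := θ) (X := X) (c := c) hS h1' h2
  obtain ⟨C, hC⟩ := Selb.dir_asym hinj hS hs
  choose r hr using Selb.dir_rational hinj hS hs
  have hsumsq : ∑ j, ‖c j‖ ^ 2 = ((∑ j, (r j) ^ 2 : ℚ) : ℝ) := by
    push_cast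
    refine Finset.sum_congr rfl (fun j _ => ?_)
    rw [hr j, ← Complex.ofReal_ratCast, Complex.norm_real, Real.norm_eq_abs, sq_abs]
  have hpole : ∀ j, X j = 1 → ∃ n : ℤ, r j = n ∧ (θ j ≠ 0 → n ≤ 0) := by
    intro j hj
    obtain ⟨n, hn, hn'⟩ := Selb.dir_pole hinj hS hs hj
    exact ⟨n, Selb.rat_int_of (hr j) hn, hn'⟩
  have hlat : ∀ v ∈ lattice b τ, ∃ n : ℤ, ∑ j, r j * v j = n := by
    intro v hv
    have hv' : v ∈ AddSubgroup.closure (Selb.Gen b θ X) := by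
      refine AddSubgroup.closure_mono ?_ hv
      rintro w (⟨z, hz⟩ | ⟨p, y, hp, hpq, hrat, hw⟩)
      · exact Or.inl ⟨z, fun j => hz j.1 j.2⟩
      · exact Or.inr ⟨p, y, hp, hpq, hrat, fun j => hw j.1 j.2⟩
    obtain ⟨n, hn⟩ := Selb.gen_integral hS hs hv'
    refine ⟨n, ?_⟩
    have e1 : ((∑ j, r j * v j : ℚ) : ℂ) = ((n : ℚ) : ℂ) := by
      push_cast
      rw [← hn]
      exact Finset.sum_congr rfl (fun j _ => by rw [hr j])
    exact_mod_cast e1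
  have hev : ∀ t : ℝ, ∀ D : K × DirichletCharacter ℂ q → Prop,
      (∀ j, D j ↔ θ j = t ∧ X j ≠ 1 ∧ (X j).Even) →
      ∀ _ : DecidablePred D, ∃ n : ℕ, ∑ j with D j, r j = n := by
    intro t D hD hdec
    obtain ⟨n, hn⟩ := Selb.dir_even hS hs t D hD hdec
    exact ⟨n, Selb.rat_sum_cast hr D hn⟩
  have hod : ∀ t : ℝ, ∀ D : K × DirichletCharacter ℂ q → Prop,
      (∀ j, D j ↔ θ j = t ∧ (X j).Odd) →
      ∀ _ : DecidablePred D, ∃ n : ℕ, ∑ j with D j, r j = n := by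
    intro t D hD hdec
    obtain ⟨n, hn⟩ := Selb.dir_odd hS hs t D hD hdec
    exact ⟨n, Selb.rat_sum_cast hr D hn⟩
  have hslice : ∀ (k : K) (P : DirichletCharacter ℂ q → Prop),
      ∑ j : K × DirichletCharacter ℂ q with (θ j = τ k ∧ P (X j)), r j =
        ∑ χ with P χ, r (k, χ) := by
    intro k P
    rw [Finset.sum_filter, Fintype.sum_prod_type, Finset.sum_eq_single k]
    · rw [Finset.sum_filter]
      refine Finset.sum_congr rfl (fun χ _ => ?_)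
      simp only [hθ, hX, true_and]
    · intro l _ hl
      refine Finset.sum_eq_zero (fun χ _ => ?_)
      exact if_neg (fun h => hl (hτ h.1))
    · intro h
      exact absurd (Finset.mem_univ _) h
  refine ⟨fun k χ => r (k, χ), fun k u hu => ?_, fun n => ?_, ⟨C, fun Y hY => ?_⟩,
    fun k => hpole (k, 1) rfl, fun k => ?_, fun k => ?_, fun v hv => ?_, ?_⟩
  · rw [hc0 k u hu]
    exact Finset.sum_congr rfl (fun χ _ => by rw [← hr (k, χ)])
  · rw [hs n, Fintype.sum_prod_type]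
    refine Finset.sum_congr rfl (fun k _ => Finset.sum_congr rfl (fun χ _ => ?_))
    rw [hr (k, χ)]
    rfl
  · have := hC Y hY
    rw [hsumsq, Fintype.sum_prod_type] at this
    exact this
  · obtain ⟨n, hn⟩ := hev (τ k) (fun j => θ j = τ k ∧ (X j ≠ 1 ∧ (X j).Even)) (fun _ => Iff.rfl) _
    rw [hslice k (fun χ => χ ≠ 1 ∧ χ.Even)] at hn
    refine ⟨n, ?_⟩
    rw [← hn]
    exact Finset.sum_congr (by ext; simp) (fun _ _ => rfl)
  · obtain ⟨n, hn⟩ := hod (τ k) (fun j => θ j = τ k ∧ (X j).Odd) (fun _ => Iff.rfl) _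
    rw [hslice k (fun χ => χ.Odd)] at hn
    refine ⟨n, ?_⟩
    rw [← hn]
  · obtain ⟨n, hn⟩ := hlat v hv
    rw [Fintype.sum_prod_type] at hn
    exact ⟨n, hn⟩
  · intro hcase
    have hpole' : ∀ j, X j = 1 → ∃ n : ℤ, r j = n := fun j hj =>
      let ⟨n, hn, _⟩ := hpole j hj
      ⟨n, hn⟩
    have hone : (∀ i j, θ i = θ j → X i ≠ 1 → X j ≠ 1 → r i ≠ 0 → r j ≠ 0 →
        ((X i).Even ↔ (X j).Even) → i = j) → ∀ j, ∃ n : ℤ, r j = n := fun h =>
      Selb.int_of_parity hpole' hev hod h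
    have hint : ∀ j, ∃ n : ℤ, r j = n := by
      rcases hcase with h | h | h | h | ⟨hcyc, hrat⟩
      · refine hone (fun i j hθ hi hj _ _ _ => hinj ?_)
        simp only [Prod.mk.injEq]
        exact ⟨hθ, Selb.unique_char (Or.inl h) _ _ hi hj⟩
      · refine hone (fun i j hθ hi hj _ _ _ => hinj ?_)
        simp only [Prod.mk.injEq]
        exact ⟨hθ, Selb.unique_char (Or.inr h) _ _ hi hj⟩
      · refine hone ?_
        rintro ⟨k, χ⟩ ⟨l, ψ⟩ h3 h4 h5 h6 h7 h8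
        have hkl : k = l := hτ h3
        subst hkl
        rw [h k χ ψ h4 h5 h6 h7 h8]
      · refine Selb.int_of_lattice hlat ?_
        rintro ⟨k, χ⟩ h0
        obtain ⟨v, hv, hv1, hv2⟩ := h k χ h0
        exact ⟨v, hv, hv1, fun j hj hj0 => hv2 j.1 j.2 hj hj0⟩
      · have hlat' : ∀ v ∈ AddSubgroup.closure (Selb.Gen b θ X), ∃ n : ℤ, ∑ j, r j * v j = n :=
          fun v hv => hlat v (AddSubgroup.closure_mono (by
            rintro w (⟨z, hz⟩ | ⟨p, y, hp, hpq, hrat, hw⟩)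
            · exact Or.inl ⟨z, fun k χ => hz (k, χ)⟩
            · exact Or.inr ⟨p, y, hp, hpq, hrat, fun k χ => hw (k, χ)⟩) hv)
        refine Selb.int_of_lattice hlat' (fun j _ => ?_)
        obtain ⟨v, hv, hv1, hv2⟩ := Selb.lattice_of_cyclic hinj hcyc hrat j
        exact ⟨v, hv, hv1, fun i hi _ => hv2 i hi⟩
    refine ⟨fun k χ => hint (k, χ), ?_⟩
    choose n hn using hint
    refine ⟨∑ j, n j ^ 2, C, fun Y hY => ?_⟩
    have h3 := hC Y hY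
    have h4 : ∑ j, ‖c j‖ ^ 2 = ((∑ j, n j ^ 2 : ℤ) : ℝ) := by
      rw [hsumsq]
      push_cast
      exact Finset.sum_congr rfl (fun j _ => by rw [hn j, Rat.cast_intCast])
    rwa [h4] at h3

end Pool.Agent.Results.MP_d8a033_nt.AlmostPeriodic
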