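import Pool.Agent.Selb.TwoE

/-!
# Elements of the Selberg class whose prime coefficients lie on circles
-/

set_option autoImplicit false

open Complex Metric Filter Topology LSeries

namespace Pool.Agent.Results.MP_d8a033_nt.CircleValues

/-- `F(s) = ∑ a n n^{-s}` is an element of the Selberg class and `b n` are the coefficients of
`log F(s)`: word for word the hypotheses of the frozen statement `S18645`. -/
def InSelberg (a b : ℕ → ℂ) : Prop :=
  a 1 = 1 ∧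
  (∀ ε : ℝ, 0 < ε → ∃ C : ℝ, ∀ n : ℕ, 1 ≤ n → ‖a n‖ ≤ C * (n : ℝ) ^ ε) ∧
  ((∀ n : ℕ, ¬ IsPrimePow n → b n = 0) ∧
    (∃ θ : ℝ, θ < 1 / 2 ∧ ∃ C : ℝ, ∀ n : ℕ, ‖b n‖ ≤ C * (n : ℝ) ^ θ) ∧
    ∀ s : ℂ, 1 < s.re → LSeries a s = Complex.exp (LSeries b s)) ∧
  (∃ m : ℕ, ∃ G : ℂ → ℂ, Differentiable ℂ G ∧
    (∃ A B : ℝ, ∀ z : ℂ, ‖G z‖ ≤ A * Real.exp (‖z‖ ^ B)) ∧
    (∀ s : ℂ, 1 < s.re → G s = (s - 1) ^ m * LSeries a s) ∧
    ∃ Q : ℝ, 0 < Q ∧ ∃ k : ℕ, ∃ lam : Fin k → ℝ, ∃ μ : Fin k → ℂ,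
      (∀ j, 0 < lam j) ∧ (∀ j, 0 ≤ (μ j).re) ∧
      ∃ ω : ℂ, ‖ω‖ = 1 ∧
        ∀ s : ℂ, s ≠ 1 → s ≠ 0 →
          (∀ j, ∀ t : ℕ, (lam j : ℂ) * s + μ j ≠ -(t : ℂ)) →
          (∀ j, ∀ t : ℕ, (lam j : ℂ) * (1 - starRingEnd ℂ s) + μ j ≠ -(t : ℂ)) →
          (Q : ℂ) ^ s * (∏ j, Complex.Gamma ((lam j : ℂ) * s + μ j)) *
              (G s / (s - 1) ^ m) =
            ω * starRingEnd ℂ
              ((Q : ℂ) ^ (1 - starRingEnd ℂ s) *
                (∏ j, Complex.Gamma ((lam j : ℂ) * (1 - starRingEnd ℂ s) + μ j)) *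
                (G (1 - starRingEnd ℂ s) / ((1 - starRingEnd ℂ s) - 1) ^ m)))

/-- `n` is the order at `z` (positive at a zero, negative at a pole) of the meromorphic
continuation of `F(s) = ∑ a n n^{-s}`. -/
def OrderAt (a : ℕ → ℂ) (z : ℂ) (n : ℤ) : Prop :=
  ∃ F : ℂ → ℂ, MeromorphicOn F Set.univ ∧ (∀ s : ℂ, 1 < s.re → F s = LSeries a s) ∧
    meromorphicOrderAt F z = n

/-- `∑ a' n n^{-s}` is in the Selberg class and is a twist of `∑ a n n^{-s}`: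
`a' p = conj (χ p) a p` for all primes `p` not dividing `q`. -/
def IsTwist {q : ℕ} (χ : DirichletCharacter ℂ q) (a a' : ℕ → ℂ) : Prop :=
  (∃ b' : ℕ → ℂ, InSelberg a' b') ∧
    ∀ p : ℕ, p.Prime → ¬ p ∣ q → a' p = starRingEnd ℂ (χ (p : ZMod q)) * a p

/-- The sum of `x p / p` over the primes `p ≤ Y`. -/
noncomputable def primeSum (x : ℕ → ℝ) (Y : ℝ) : ℝ :=
  ∑ p ∈ (Finset.range (⌊Y⌋₊ + 1)).filter Nat.Prime, x p / (p : ℝ)

/-- `∑_{p ≤ Y} x p / p = K log log Y + O(1)`. -/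
def Mean (x : ℕ → ℝ) (K : ℝ) : Prop :=
  ∃ C : ℝ, ∀ Y : ℝ, 3 ≤ Y → |primeSum x Y - K * Real.log (Real.log Y)| ≤ C

open Classical in
/-- The sum of `(1 + |a p|²) / p` over the primes `p` in `P` converges. -/
def Negligible (a : ℕ → ℂ) (P : Set ℕ) : Prop :=
  Summable (fun p : ℕ => if p.Prime ∧ p ∈ P then (1 + ‖a p‖ ^ 2) / (p : ℝ) else 0)

/-- The function `∑_j c_j χ_j(p) p^{i t_j}` of `p`. -/
noncomputable def trig {q : ℕ} {J : Type} [Fintype J] (t : J → ℝ)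
    (χ : J → DirichletCharacter ℂ q) (c : J → ℂ) (p : ℕ) : ℂ :=
  ∑ j, c j * χ j (p : ZMod q) * (p : ℂ) ^ (t j * I)

lemma trig_eq {q : ℕ} {J : Type} [Fintype J] (t : J → ℝ) (χ : J → DirichletCharacter ℂ q)
    (c : J → ℂ) (p : ℕ) : Selb.trg t χ c p = trig t χ c p := by
  unfold Selb.trg trig Selb.osc
  refine Finset.sum_congr rfl fun j _ => ?_
  congr 2
  push_cast
  ring

lemma trig_eq' {q : ℕ} {J : Type} [Fintype J] (t : J → ℝ) (χ : J → DirichletCharacter ℂ q)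
    (c : J → ℂ) : Selb.trg t χ c = trig t χ c := funext fun p => trig_eq t χ c p

lemma trig_one (c : ℂ) (p : ℕ) :
    Selb.trg (q := 1) (J := Unit) (fun _ => 0) (fun _ => 1) (fun _ => c) p = c := by
  have h1 : (1 : DirichletCharacter ℂ 1) (p : ZMod 1) = 1 := by
    apply MulChar.one_apply
    rw [ZMod.isUnit_iff_coprime]
    exact Nat.coprime_one_right p
  unfold Selb.trg Selb.osc
  simp [h1]

lemma arith {a b : ℕ → ℂ} (h : InSelberg a b) : Selb.Arith a b :=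
  ⟨h.1, h.2.1, h.2.2.1.1, h.2.2.1.2.1, h.2.2.1.2.2⟩

lemma hasOrd {q : ℕ} [NeZero q] {χ : DirichletCharacter ℂ q} {a a' : ℕ → ℂ}
    (h : IsTwist χ a a') {t : ℝ} {d : ℤ} (hd : OrderAt a' (1 + t * I) d) :
    Selb.HasOrd (Selb.tw χ a) t d := by
  obtain ⟨⟨b', hb'⟩, hp⟩ := h
  exact Selb.hasOrd_of (arith hb') hd (q := q) (fun p hp1 hpq => hp p hp1 hpq)

lemma isTwist_one {a b : ℕ → ℂ} (h : InSelberg a b) :
    IsTwist (1 : DirichletCharacter ℂ 1) a a := by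
  refine ⟨⟨b, h⟩, fun p _ _ => ?_⟩
  have h1 : (1 : DirichletCharacter ℂ 1) (p : ZMod 1) = 1 := by
    apply MulChar.one_apply
    rw [ZMod.isUnit_iff_coprime]
    exact Nat.coprime_one_right p
  rw [h1, map_one, one_mul]

lemma two_values (α β : ℂ) : (‖α - β‖ / 2) ^ 2 - ‖(α + β) / 2‖ ^ 2 = -(α * starRingEnd ℂ β).re := by
  have h2 : ‖(2 : ℂ)‖ = 2 := by simp
  rw [norm_div, h2, div_pow, div_pow, ← Complex.normSq_eq_norm_sq (α + β),
    ← Complex.normSq_eq_norm_sq (α - β), Complex.normSq_add, Complex.normSq_sub]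
  ring

lemma dist_two (α β : ℂ) : ‖α - (α + β) / 2‖ = ‖α - β‖ / 2 ∧ ‖β - (α + β) / 2‖ = ‖α - β‖ / 2 := by
  have e1 : α - (α + β) / 2 = (α - β) / 2 := by ring
  have e2 : β - (α + β) / 2 = -((α - β) / 2) := by ring
  rw [e1, e2, norm_neg, norm_div]
  simp

/-- **Elements of the Selberg class whose prime coefficients lie on circles or in discs.** -/
theorem result (a b : ℕ → ℂ) (hF : InSelberg a b) :
    -- (A) no hypothesis on twists
    (∀ d : ℤ, OrderAt a 1 d → ∀ P : Set ℕ, Negligible a P →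
      (∀ (w : ℂ) (r : ℝ), (∀ p : ℕ, p.Prime → p ∉ P → ‖a p - w‖ = r) →
        Mean (fun p => ‖a p‖ ^ 2) (r ^ 2 - ‖w‖ ^ 2 - 2 * d * w.re)) ∧
      (∀ (α β : ℂ) (Q : Set ℕ) (κ : ℝ), Mean (Q.indicator 1) κ →
        (∀ p : ℕ, p.Prime → p ∉ P → p ∈ Q → a p = α ∨ a p = β) →
        (∀ p : ℕ, p.Prime → p ∉ P → p ∉ Q → a p = 0) →
        Mean (fun p => ‖a p‖ ^ 2) (-(d * (α + β).re) - κ * (α * starRingEnd ℂ β).re)) ∧
      (∀ α β : GaussianInt,
        (∀ p : ℕ, p.Prime → p ∉ P → a p = GaussianInt.toComplex α ∨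
          a p = GaussianInt.toComplex β) →
        Mean (fun p => ‖a p‖ ^ 2) (-(d * (α + β).re) - (α * star β).re : ℤ)) ∧
      (∀ x : ℤ, (∀ p : ℕ, p.Prime → p ∉ P → ‖a p - ((x : ℂ) + 1 / 2)‖ ≤ 1 / 2) →
        (d = -x ∨ d = -(x + 1)) ∧ Mean (fun p => ‖a p‖ ^ 2) (d ^ 2 : ℤ))) ∧
    -- (B) recentring at a combination of characters and shifts
    (∀ (q : ℕ) [NeZero q] (J : Type) [Fintype J] (t : J → ℝ) (χ : J → DirichletCharacter ℂ q),
      Function.Injective (fun j => (t j, χ j)) → ∀ A : J → ℕ → ℂ,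
      (∀ j, IsTwist (χ j) a (A j)) → ∀ d : J → ℤ, (∀ j, OrderAt (A j) (1 + t j * I) (d j)) →
      (∀ K C : ℝ, (∀ Y : ℝ, 3 ≤ Y →
          primeSum (fun p => ‖a p‖ ^ 2) Y ≤ K * Real.log (Real.log Y) + C) →
        ∑ j, (d j : ℝ) ^ 2 ≤ K) ∧
      (∀ (c : J → ℂ) (K : ℝ), Mean (fun p => ‖a p‖ ^ 2) K ↔
        Mean (fun p => ‖a p - trig t χ c p‖ ^ 2)
          (K - ∑ j, (d j : ℝ) ^ 2 + ∑ j, ‖c j + (d j : ℂ)‖ ^ 2)) ∧
      (Mean (fun p => ‖a p‖ ^ 2) (∑ j, (d j : ℝ) ^ 2) ↔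
        Summable (fun p : ℕ => if p.Prime then
          ‖a p + trig t χ (fun j => (d j : ℂ)) p‖ ^ 2 / (p : ℝ) else 0)) ∧
      (∀ P : Set ℕ, Negligible a P → ∀ (c : J → ℂ) (r : ℕ → ℝ) (R B : ℝ),
        Mean (fun p => r p ^ 2) R → (∀ p, |r p| ≤ B) →
        ((∀ p : ℕ, p.Prime → p ∉ P → ‖a p - trig t χ c p‖ = r p) →
          Mean (fun p => ‖a p‖ ^ 2)
            (∑ j, (d j : ℝ) ^ 2 - ∑ j, ‖c j + (d j : ℂ)‖ ^ 2 + R)) ∧
        ((∀ p : ℕ, p.Prime → p ∉ P → ‖a p - trig t χ c p‖ ≤ r p) →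
          ∑ j, ‖c j + (d j : ℂ)‖ ^ 2 ≤ R ∧
          (∑ j, ‖c j + (d j : ℂ)‖ ^ 2 = R →
            Mean (fun p => ‖a p‖ ^ 2) (∑ j, (d j : ℝ) ^ 2))))) := by
  classical
  have hA := arith hF
  have hone := isTwist_one hF
  have hord1 : ∀ d : ℤ, OrderAt a 1 d → ∀ j : Unit,
      Selb.HasOrd (Selb.tw ((fun _ : Unit => (1 : DirichletCharacter ℂ 1)) j) a)
        ((fun _ : Unit => (0 : ℝ)) j) ((fun _ : Unit => d) j) := by
    intro d hd _
    refine hasOrd hone ?_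
    have e0 : (1 : ℂ) + ((0 : ℝ) : ℂ) * I = 1 := by simp
    rw [e0]
    exact hd
  have hinj1 : Function.Injective (fun j : Unit =>
      ((fun _ : Unit => (0 : ℝ)) j, (fun _ : Unit => (1 : DirichletCharacter ℂ 1)) j)) :=
    fun _ _ _ => Subsingleton.elim _ _
  -- concentric circles
  have hcirc : ∀ d : ℤ, OrderAt a 1 d → ∀ P : Set ℕ, Negligible a P →
      ∀ (w : ℂ) (r : ℕ → ℝ) (R B : ℝ), Selb.Mn (fun p => r p ^ 2) R → (∀ p, r p ^ 2 ≤ B) →
        (∀ p : ℕ, p.Prime → p ∉ P → ‖a p - w‖ = r p) →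
        Mean (fun p => ‖a p‖ ^ 2) (R - ‖w‖ ^ 2 - 2 * d * w.re) := by
    intro d hd P hP w r R B hR hB hr
    have h1 := Selb.circle (c := fun _ : Unit => w) (r := r) (B := B)
      hinj1 (hord1 d hd) hP hR hB
      (fun p hp hpP => by rw [trig_one]; exact hr p hp hpP)
    rw [← Selb.kap_eq] at h1
    simp only [Finset.univ_unique, Finset.sum_singleton] at h1
    have e : -(2 * (w.re * (d : ℝ))) - ‖w‖ ^ 2 + R = R - ‖w‖ ^ 2 - 2 * d * w.re := by ring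
    rw [e] at h1
    exact h1
  -- three values
  have hthree : ∀ d : ℤ, OrderAt a 1 d → ∀ P : Set ℕ, Negligible a P →
      ∀ (α β : ℂ) (Q : Set ℕ) (κ : ℝ), Mean (Q.indicator 1) κ →
        (∀ p : ℕ, p.Prime → p ∉ P → p ∈ Q → a p = α ∨ a p = β) →
        (∀ p : ℕ, p.Prime → p ∉ P → p ∉ Q → a p = 0) →
        Mean (fun p => ‖a p‖ ^ 2) (-(d * (α + β).re) - κ * (α * starRingEnd ℂ β).re) := by
    intro d hd P hP α β Q κ hQ h1 h2
    have hR : Selb.Mn (fun p => (if p ∈ Q then ‖α - β‖ / 2 else ‖(α + β) / 2‖) ^ 2)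
        (‖(α + β) / 2‖ ^ 2 + ((‖α - β‖ / 2) ^ 2 - ‖(α + β) / 2‖ ^ 2) * κ) := by
      have h3 := (Selb.Mn_const (‖(α + β) / 2‖ ^ 2)).add
        (Selb.Mn.mul (x := Q.indicator 1) hQ ((‖α - β‖ / 2) ^ 2 - ‖(α + β) / 2‖ ^ 2))
      refine h3.congr fun p _ => ?_
      by_cases hp : p ∈ Q
      · rw [if_pos hp, Set.indicator_of_mem hp, Pi.one_apply]
        ring
      · rw [if_neg hp, Set.indicator_of_notMem hp]
        ring
    have h4 := hcirc d hd P hP ((α + β) / 2) _ _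
      ((‖α - β‖ / 2) ^ 2 + ‖(α + β) / 2‖ ^ 2) hR (fun p => by
        split_ifs
        · have : 0 ≤ ‖(α + β) / 2‖ ^ 2 := by positivity
          linarith
        · have : 0 ≤ (‖α - β‖ / 2) ^ 2 := by positivity
          linarith)
      (fun p hp hpP => by
        by_cases hpQ : p ∈ Q
        · rw [if_pos hpQ]
          rcases h1 p hp hpP hpQ with h5 | h5
          · rw [h5]; exact (dist_two α β).1
          · rw [h5]; exact (dist_two α β).2
        · rw [if_neg hpQ, h2 p hp hpP hpQ, zero_sub, norm_neg])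
    have e : ‖(α + β) / 2‖ ^ 2 + ((‖α - β‖ / 2) ^ 2 - ‖(α + β) / 2‖ ^ 2) * κ -
        ‖(α + β) / 2‖ ^ 2 - 2 * d * ((α + β) / 2).re =
        -(d * (α + β).re) - κ * (α * starRingEnd ℂ β).re := by
      have e1 : (α + β) / 2 = (α + β) / ((2 : ℝ) : ℂ) := by push_cast; rfl
      rw [two_values, e1, Complex.div_ofReal_re]
      ring
    rw [e] at h4
    exact h4
  refine ⟨fun d hd P hP => ⟨fun w r hr => ?_, hthree d hd P hP, fun α β hab => ?_,
    fun x hx => ?_⟩,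
    fun q _ J _ t χ hinj A hT d hd => ⟨fun K C hK => ?_, fun c K => ?_, ?_,
      fun P hP c r R B hR hB => ⟨fun hr => ?_, fun hr => ?_⟩⟩⟩
  · exact hcirc d hd P hP w (fun _ => r) (r ^ 2) (r ^ 2) (Selb.Mn_const _) (fun _ => le_rfl) hr
  · -- Gaussian integers
    have hQ : Mean (Set.univ.indicator 1) 1 := by
      have h1 : Selb.Mn (Set.univ.indicator 1) 1 :=
        (Selb.Mn_const 1).congr fun p _ => by rw [Set.indicator_of_mem (Set.mem_univ p)]; rfl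
      exact h1
    have h1 := hthree d hd P hP (GaussianInt.toComplex α) (GaussianInt.toComplex β) Set.univ 1 hQ
      (fun p hp hpP _ => hab p hp hpP) (fun p _ _ h => absurd (Set.mem_univ p) h)
    have e1 : (GaussianInt.toComplex α + GaussianInt.toComplex β).re = ((α + β).re : ℝ) := by
      rw [← map_add, ← GaussianInt.intCast_re]
    have e2 : (GaussianInt.toComplex α * starRingEnd ℂ (GaussianInt.toComplex β)).re =
        ((α * star β).re : ℝ) := by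
      rw [← GaussianInt.toComplex_star, ← map_mul, ← GaussianInt.intCast_re]
    have e3 : ((-(d * (α + β).re) - (α * star β).re : ℤ) : ℝ) =
        -((d : ℝ) * ((α + β).re : ℝ)) - 1 * ((α * star β).re : ℝ) := by
      push_cast
      ring
    rw [e3, ← e1, ← e2]
    exact h1
  · -- the disc of radius 1/2
    obtain ⟨h1, h2⟩ := Selb.disc (c := fun _ : Unit => (x : ℂ) + 1 / 2) (r := fun _ => 1 / 2)
      (B := 1 / 2) hA hinj1 (hord1 d hd) hP (Selb.Mn_const ((1 / 2) ^ 2)) (fun _ => le_rfl)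
      (fun p hp hpP => by rw [trig_one]; exact hx p hp hpP)
    simp only [Finset.univ_unique, Finset.sum_singleton] at h1 h2
    have e : ‖(x : ℂ) + 1 / 2 + (d : ℂ)‖ ^ 2 = ((x : ℝ) + 1 / 2 + d) ^ 2 := by
      have h3 : (x : ℂ) + 1 / 2 + (d : ℂ) = (((x : ℝ) + 1 / 2 + d : ℝ) : ℂ) := by push_cast; rfl
      rw [h3, Complex.norm_real, Real.norm_eq_abs, sq_abs]
    rw [e] at h1 h2
    have h3 : ((x : ℝ) + d) * ((x : ℝ) + d + 1) ≤ 0 := by nlinarith
    have h4 : (x + d) * (x + d + 1) ≤ 0 := by exact_mod_cast h3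
    have h5 : x + d = 0 ∨ x + d = -1 := by
      rcases lt_trichotomy (x + d) 0 with h | h | h
      · right
        by_contra hne
        have h6 : x + d ≤ -2 := by omega
        nlinarith
      · left; exact h
      · exfalso
        nlinarith
    refine ⟨by omega, ?_⟩
    have h6 : ((x : ℝ) + 1 / 2 + d) ^ 2 = (1 / 2) ^ 2 := by
      rcases h5 with h5 | h5
      · have h7 : (x : ℝ) + d = 0 := by exact_mod_cast h5
        have : (x : ℝ) + 1 / 2 + d = 1 / 2 := by linarith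
        rw [this]
      · have h7 : (x : ℝ) + d = -1 := by exact_mod_cast h5
        have : (x : ℝ) + 1 / 2 + d = -(1 / 2) := by linarith
        rw [this]
        ring
    have h8 := h2 h6
    have h9 : ((d ^ 2 : ℤ) : ℝ) = (d : ℝ) ^ 2 := by push_cast; rfl
    rw [h9]
    exact h8
  · exact Selb.lower_all hA hinj (fun j => hasOrd (hT j) (hd j)) (κ := K) (C := C) hK
  · have h1 := Selb.recentre_iff hinj (fun j => hasOrd (hT j) (hd j)) c K
    rw [trig_eq'] at h1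
    exact h1
  · have h1 := Selb.equality_iff hinj (fun j => hasOrd (hT j) (hd j))
    rw [trig_eq'] at h1
    exact h1
  · exact Selb.circle hinj (fun j => hasOrd (hT j) (hd j)) hP hR (B := B ^ 2)
      (fun p => by
        have h1 := hB p
        rw [← sq_abs]
        exact pow_le_pow_left₀ (abs_nonneg _) h1 2)
      (fun p hp hpP => by rw [trig_eq]; exact hr p hp hpP)
  · exact Selb.disc hA hinj (fun j => hasOrd (hT j) (hd j)) hP hR (B := B)
      (fun p => (le_abs_self _).trans (hB p))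
      (fun p hp hpP => by rw [trig_eq]; exact hr p hp hpP)

end Pool.Agent.Results.MP_d8a033_nt.CircleValues
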