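import Pool.Agent.Selb.SpanT

/-!
# Elements of the Selberg class near the span of other elements
-/

set_option autoImplicit false

open Complex Metric Filter Topology LSeries

namespace Pool.Agent.Results.MP_d8a033_nt.SelbergSpan

/-- `F(s) = ∑ a n n^{-s}` is an element of the Selberg class and `b n` are the coefficients of
`log F(s)`: word for word the hypotheses of the frozen statement `S18645`. -/
def InSelberg (a b : ℕ → ℂ) : Prop :=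
  a 1 = 1 ∧
  (∀ ε : ℝ, 0 < ε → ∃ C : ℝ, ∀ n : ℕ, 1 ≤ n → ‖a n‖ ≤ C * (n : ℝ) ^ ε) ∧
  ((∀ n : ℕ, ¬ IsPrimePow n → b n = 0) ∧
    (∃ θ : ℝ, θ < 1 / 2 ∧ ∃ C : ℝ, ∀ n : ℕ, ‖b n‖ ≤ C * (n : ℝ) ^ θ) ∧
    ∀ s : ℂ, 1 < s.re → LSeries a s = Complex.exp (LSeries b s)) ∧
  (∃ m : ℕ, ∃ G : ℂ → ℂ, Differentiable ℂ G ∧
    (∃ A B : ℝ, ∀ z : ℂ, ‖G z‖ ≤ A * Real.exp (‖z‖ ^ B)) ∧
    (∀ s : ℂ, 1 < s.re → G s = (s - 1) ^ m * LSeries a s) ∧
    ∃ Q : ℝ, 0 < Q ∧ ∃ k : ℕ, ∃ lam : Fin k → ℝ, ∃ μ : Fin k → ℂ,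
      (∀ j, 0 < lam j) ∧ (∀ j, 0 ≤ (μ j).re) ∧
      ∃ ω : ℂ, ‖ω‖ = 1 ∧
        ∀ s : ℂ, s ≠ 1 → s ≠ 0 →
          (∀ j, ∀ t : ℕ, (lam j : ℂ) * s + μ j ≠ -(t : ℂ)) →
          (∀ j, ∀ t : ℕ, (lam j : ℂ) * (1 - starRingEnd ℂ s) + μ j ≠ -(t : ℂ)) →
          (Q : ℂ) ^ s * (∏ j, Complex.Gamma ((lam j : ℂ) * s + μ j)) *
              (G s / (s - 1) ^ m) =
            ω * starRingEnd ℂ
              ((Q : ℂ) ^ (1 - starRingEnd ℂ s) *
                (∏ j, Complex.Gamma ((lam j : ℂ) * (1 - starRingEnd ℂ s) + μ j)) *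
                (G (1 - starRingEnd ℂ s) / ((1 - starRingEnd ℂ s) - 1) ^ m)))

/-- Over the primes, `x p = u p + v p` with `∑_{p ≤ N} |u p|² p^{1 - 2σ} log p = O(log N)` and
`∑_p |v p| p^{-σ} log p < ∞`. -/
def SmallAt (σ : ℝ) (x : ℕ → ℂ) : Prop :=
  ∃ u v : ℕ → ℂ, (∀ p : ℕ, p.Prime → x p = u p + v p) ∧
    (∃ C : ℝ, ∀ N : ℕ, 2 ≤ N → ∑ p ∈ (Finset.range (N + 1)).filter Nat.Prime,
      ‖u p‖ ^ 2 * (p : ℝ) ^ (1 - 2 * σ) * Real.log p ≤ C * Real.log N) ∧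
    Summable (fun p : ℕ => if p.Prime then ‖v p‖ * (p : ℝ) ^ (-σ) * Real.log p else 0)

/-- `n` is the order at `z` (negative at a pole) of the meromorphic continuation of
`F(s) = ∑ a n n^{-s}`. -/
def OrderAt (a : ℕ → ℂ) (z : ℂ) (n : ℤ) : Prop :=
  ∃ F : ℂ → ℂ, MeromorphicOn F Set.univ ∧ (∀ s : ℂ, 1 < s.re → F s = LSeries a s) ∧
    meromorphicOrderAt F z = n

/-- `∑_{p ≤ Y} a_i(p) conj(a_j(p)) p^{-i(θ_i - θ_j)} / p = g_{ij} log log Y + O(1)` for all `i`, `j`: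
the Gram matrix of the functions `F_j(s + i θ_j)` exists and is equal to `g`. -/
def HasGram {J : Type} (a' : J → ℕ → ℂ) (θ : J → ℝ) (g : Matrix J J ℤ) : Prop :=
  ∀ i j, ∃ C : ℝ, ∀ Y : ℝ, 3 ≤ Y →
    ‖(∑ p ∈ (Finset.range (⌊Y⌋₊ + 1)).filter Nat.Prime,
      (a' i p * (p : ℂ) ^ (-(θ i * I))) *
        (starRingEnd ℂ) (a' j p * (p : ℂ) ^ (-(θ j * I))) / (p : ℂ)) -
      (g i j : ℂ) * (Real.log (Real.log Y) : ℂ)‖ ≤ C

lemma inS {a b : ℕ → ℂ} (h : InSelberg a b) : Selb.InS a b := by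
  obtain ⟨ha1, hram, ⟨hsupp, hbd, heul⟩, m, G, hGd, hGo, hGc, Q, hQ, k, lam, μ, hlam, hmu, ω,
    hω, hfe⟩ := h
  exact ⟨⟨ha1, hram, hsupp, hbd, heul⟩, m, G, Q, k, lam, μ, ω,
    ⟨hGd, hGo, hGc, hQ, hlam, hmu, hω, hfe⟩⟩

/-- **Elements of the Selberg class near the span of other elements.** -/
theorem result (a b : ℕ → ℂ) (hF : InSelberg a b) (J : Type) [Fintype J] [DecidableEq J]
    (a' b' : J → ℕ → ℂ) (hA : ∀ j, InSelberg (a' j) (b' j)) (θ : J → ℝ) (c : J → ℂ)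
    (h1 : SmallAt (1 / 2) (fun p => a p - ∑ j, c j * (a' j p * (p : ℂ) ^ (-(θ j * I)))))
    (h2 : SmallAt 1 (fun p => b (p ^ 2) -
      ∑ j, c j * (b' j (p ^ 2) * ((p ^ 2 : ℕ) : ℂ) ^ (-(θ j * I))))) :
    (∀ n : ℕ, b n = ∑ j, c j * (b' j n * (n : ℂ) ^ (-(θ j * I)))) ∧
    (∀ (z : ℂ) (v : J → ℤ), (∀ j, OrderAt (a' j) (z + θ j * I) (v j)) →
      ∃ n : ℤ, OrderAt a z n ∧ (n : ℂ) = ∑ j, c j * (v j : ℂ)) ∧
    ((∀ d : J → ℂ, (∀ p : ℕ, p.Prime →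
        ∑ j, d j * (a' j p * (p : ℂ) ^ (-(θ j * I))) = 0) → ∀ j, d j = 0) →
      ∀ j, ∃ r : ℚ, c j = r) ∧
    (∀ g : Matrix J J ℤ, HasGram a' θ g → g.det ≠ 0 →
      ∃ r : J → ℚ, (∀ j, c j = r j) ∧
        (∃ C : ℝ, ∀ Y : ℝ, 3 ≤ Y →
          |(∑ p ∈ (Finset.range (⌊Y⌋₊ + 1)).filter Nat.Prime, ‖a p‖ ^ 2 / (p : ℝ)) -
            ((∑ i, ∑ j, r i * r j * g i j : ℚ) : ℝ) * Real.log (Real.log Y)| ≤ C) ∧
        ((∀ j, r j ≠ 0 → ∃ v ∈ AddSubgroup.closure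
            {v : J → ℤ | ∃ z : ℂ, ∀ i, OrderAt (a' i) (z + θ i * I) (v i)},
            v j = 1 ∧ ∀ i, i ≠ j → r i ≠ 0 → v i = 0) →
          (∀ j, ∃ n : ℤ, r j = n) ∧
          ∃ nF : ℤ, ∃ C : ℝ, ∀ Y : ℝ, 3 ≤ Y →
            |(∑ p ∈ (Finset.range (⌊Y⌋₊ + 1)).filter Nat.Prime, ‖a p‖ ^ 2 / (p : ℝ)) -
              (nF : ℝ) * Real.log (Real.log Y)| ≤ C)) := by
  classical
  have hS := inS hF
  have hAS : ∀ j, Selb.InS (a' j) (b' j) := fun j => inS (hA j)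
  have hs : ∀ n : ℕ, b n = ∑ j, c j * (b' j n * Selb.osc (θ j) n) :=
    Selb.span_relation hS hAS θ c h1 h2
  have hord : ∀ (z : ℂ) (v : J → ℤ), (∀ j, OrderAt (a' j) (z + θ j * I) (v j)) →
      ∃ n : ℤ, OrderAt a z n ∧ (n : ℂ) = ∑ j, c j * (v j : ℂ) := by
    intro z v hv
    obtain ⟨n, hn⟩ := Selb.OrdAt_exists hS z
    exact ⟨n, (Selb.MOrd_iff hS z n).2 hn,
      Selb.span_order hS hAS hs hn (fun j => (Selb.MOrd_iff (hAS j) _ _).1 (hv j))⟩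
  refine ⟨hs, hord, fun hind j => Selb.span_rational hS hAS hs hind j, fun g hg hdet => ?_⟩
  set gC : Matrix J J ℂ := g.map (Int.cast : ℤ → ℂ) with hgC
  have hdetC : gC.det ≠ 0 := by
    have h3 : gC.det = ((g.det : ℤ) : ℂ) := by
      rw [hgC]
      exact (RingHom.map_det (Int.castRingHom ℂ) g).symm
    rw [h3]
    exact_mod_cast hdet
  set w : J → ℕ → ℂ := fun j p => a' j p * Selb.osc (θ j) p with hw
  have hgw : ∀ i j, Selb.PairAsym (w i) (w j) (gC i j) := fun i j => hg i j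
  have hind : ∀ d : J → ℂ, (∀ p : ℕ, p.Prime → ∑ j, d j * (a' j p * Selb.osc (θ j) p) = 0) →
      ∀ j, d j = 0 := fun d hd j => Selb.gram_indep hgw hdetC d hd j
  choose r hr using fun j => Selb.span_rational hS hAS hs hind j
  have hap : ∀ p : ℕ, p.Prime → a p = ∑ j, c j * w j p := by
    intro p hp
    rw [hS.arith.at_prime hp, hs p]
    refine Finset.sum_congr rfl (fun j _ => ?_)
    show c j * (b' j p * Selb.osc (θ j) p) = c j * (a' j p * Selb.osc (θ j) p)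
    rw [(hAS j).arith.at_prime hp]
  have hκ : ((((∑ i, ∑ j, r i * r j * g i j : ℚ) : ℝ)) : ℂ) =
      ∑ i, ∑ j, c i * (starRingEnd ℂ) (c j) * gC i j := by
    push_cast
    refine Finset.sum_congr rfl (fun i _ => Finset.sum_congr rfl (fun j _ => ?_))
    rw [hr i, hr j, hgC, Matrix.map_apply, ← Complex.ofReal_ratCast (r j), Complex.conj_ofReal,
      Complex.ofReal_ratCast]
  obtain ⟨C, hC⟩ := Selb.gram_sum hgw c hκ hap
  refine ⟨r, hr, ⟨C, hC⟩, fun hsep => ?_⟩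
  have hlat : ∀ v ∈ AddSubgroup.closure
      {v : J → ℤ | ∃ z : ℂ, ∀ i, OrderAt (a' i) (z + θ i * I) (v i)},
      ∃ n : ℤ, ∑ j, r j * v j = n := by
    intro v hv
    induction hv using AddSubgroup.closure_induction with
    | mem v hv =>
      obtain ⟨z, hz⟩ := hv
      obtain ⟨n, -, hn⟩ := hord z v hz
      refine ⟨n, ?_⟩
      have e1 : ((∑ j, r j * v j : ℚ) : ℂ) = ((n : ℚ) : ℂ) := by
        push_cast
        rw [hn]
        exact Finset.sum_congr rfl (fun j _ => by rw [hr j])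
      exact_mod_cast e1
    | zero => exact ⟨0, by simp⟩
    | add v w _ _ ihv ihw =>
      obtain ⟨n, hn⟩ := ihv
      obtain ⟨k, hk⟩ := ihw
      refine ⟨n + k, ?_⟩
      push_cast
      rw [← hn, ← hk, ← Finset.sum_add_distrib]
      refine Finset.sum_congr rfl (fun j _ => ?_)
      rw [Pi.add_apply]
      push_cast
      ring
    | neg v _ ih =>
      obtain ⟨n, hn⟩ := ih
      refine ⟨-n, ?_⟩
      push_cast
      rw [← hn, ← Finset.sum_neg_distrib]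
      refine Finset.sum_congr rfl (fun j _ => ?_)
      rw [Pi.neg_apply]
      push_cast
      ring
  have hint : ∀ j, ∃ n : ℤ, r j = n := Selb.int_of_lattice hlat hsep
  refine ⟨hint, ?_⟩
  choose n hn using hint
  refine ⟨∑ i, ∑ j, n i * n j * g i j, C, fun Y hY => ?_⟩
  have h3 := hC Y hY
  have h4 : ((∑ i, ∑ j, r i * r j * g i j : ℚ) : ℝ) =
      ((∑ i, ∑ j, n i * n j * g i j : ℤ) : ℝ) := by
    push_cast
    refine Finset.sum_congr rfl (fun i _ => Finset.sum_congr rfl (fun j _ => ?_))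
    rw [hn i, hn j]
    push_cast
    ring
  rwa [h4] at h3

end Pool.Agent.Results.MP_d8a033_nt.SelbergSpan
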