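import Pool.Agent.Selb.D1App

/-!
# Selberg's Conjecture A near a combination of at most three nonprincipal characters
-/

set_option autoImplicit false

open Complex Metric Filter Topology LSeries

namespace Pool.Agent.Results.MP_d8a033_nt.ThreeCharacters

/-- `F(s) = ∑ a n n^{-s}` is an element of the Selberg class: word for word the hypotheses of the
frozen statement `S18645`. -/
def InSelberg (a : ℕ → ℂ) : Prop :=
  a 1 = 1 ∧
  (∀ ε : ℝ, 0 < ε → ∃ C : ℝ, ∀ n : ℕ, 1 ≤ n → ‖a n‖ ≤ C * (n : ℝ) ^ ε) ∧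
  (∃ b : ℕ → ℂ, (∀ n : ℕ, ¬ IsPrimePow n → b n = 0) ∧
    (∃ θ : ℝ, θ < 1 / 2 ∧ ∃ C : ℝ, ∀ n : ℕ, ‖b n‖ ≤ C * (n : ℝ) ^ θ) ∧
    ∀ s : ℂ, 1 < s.re → LSeries a s = Complex.exp (LSeries b s)) ∧
  (∃ m : ℕ, ∃ G : ℂ → ℂ, Differentiable ℂ G ∧
    (∃ A B : ℝ, ∀ z : ℂ, ‖G z‖ ≤ A * Real.exp (‖z‖ ^ B)) ∧
    (∀ s : ℂ, 1 < s.re → G s = (s - 1) ^ m * LSeries a s) ∧
    ∃ Q : ℝ, 0 < Q ∧ ∃ k : ℕ, ∃ lam : Fin k → ℝ, ∃ μ : Fin k → ℂ,
      (∀ j, 0 < lam j) ∧ (∀ j, 0 ≤ (μ j).re) ∧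
      ∃ ω : ℂ, ‖ω‖ = 1 ∧
        ∀ s : ℂ, s ≠ 1 → s ≠ 0 →
          (∀ j, ∀ t : ℕ, (lam j : ℂ) * s + μ j ≠ -(t : ℂ)) →
          (∀ j, ∀ t : ℕ, (lam j : ℂ) * (1 - starRingEnd ℂ s) + μ j ≠ -(t : ℂ)) →
          (Q : ℂ) ^ s * (∏ j, Complex.Gamma ((lam j : ℂ) * s + μ j)) *
              (G s / (s - 1) ^ m) =
            ω * starRingEnd ℂ
              ((Q : ℂ) ^ (1 - starRingEnd ℂ s) *
                (∏ j, Complex.Gamma ((lam j : ℂ) * (1 - starRingEnd ℂ s) + μ j)) *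
                (G (1 - starRingEnd ℂ s) / ((1 - starRingEnd ℂ s) - 1) ^ m)))

/-- Over the primes, `x p = u p + v p` with `∑_{p ≤ N} |u p|² p^{1 - 2σ} log p = O(log N)` and
`∑_p |v p| p^{-σ} log p < ∞`. -/
def SmallAt (σ : ℝ) (x : ℕ → ℂ) : Prop :=
  ∃ u v : ℕ → ℂ, (∀ p : ℕ, p.Prime → x p = u p + v p) ∧
    (∃ C : ℝ, ∀ N : ℕ, 2 ≤ N → ∑ p ∈ (Finset.range (N + 1)).filter Nat.Prime,
      ‖u p‖ ^ 2 * (p : ℝ) ^ (1 - 2 * σ) * Real.log p ≤ C * Real.log N) ∧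
    Summable (fun p : ℕ => if p.Prime then ‖v p‖ * (p : ℝ) ^ (-σ) * Real.log p else 0)

open Classical in
/-- **Conjecture A near a combination of at most three nonprincipal characters.** -/
theorem result (a : ℕ → ℂ) (hF : InSelberg a) (q : ℕ) [NeZero q] (J : Type) [Fintype J]
    (t : J → ℝ) (χ : J → DirichletCharacter ℂ q) (hdist : ∀ i j, t i = t j → χ i = χ j → i = j)
    (c : J → ℂ)
    (h1 : SmallAt (1 / 2)
      (fun p => a p - ∑ j, c j * χ j (p : ZMod q) * (p : ℂ) ^ (-(t j * I))))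
    (h2 : SmallAt 1 (fun p => a (p ^ 2))) :
    ∃ r : J → ℚ, (∀ j, c j = r j) ∧
      (∀ k : ℤ, ∑ j with χ j ≠ 1, Int.fract (k * r j) ≠ 1) ∧
      (({j | χ j ≠ 1 ∧ Int.fract (r j) ≠ 0}.ncard ≤ 3 ∨
          ((∀ i j, t i = t j) ∧ q.totient ≤ 4)) →
        (∀ j, ∃ n : ℤ, r j = n) ∧
        ∃ nF : ℤ, ∃ C : ℝ, ∀ Y : ℝ, 3 ≤ Y →
          |(∑ p ∈ (Finset.range (⌊Y⌋₊ + 1)).filter Nat.Prime, ‖a p‖ ^ 2 / (p : ℝ)) -
            (nF : ℝ) * Real.log (Real.log Y)| ≤ C) := by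
  obtain ⟨ha1, hram, ⟨b, hsupp, hbd, heul⟩, m, G, hGd, hGo, hGc, Q, hQ, k, lam, μ, hlam, hmu, ω,
    hω, hfe⟩ := hF
  have hS : Selb.InS a b := ⟨⟨ha1, hram, hsupp, hbd, heul⟩, m, G, Q, k, lam, μ, ω,
    ⟨hGd, hGo, hGc, hQ, hlam, hmu, hω, hfe⟩⟩
  clear ha1 hram hsupp hbd heul hGd hGo hGc hQ hlam hmu hω hfe
  have hinj : Function.Injective (fun j => (t j, χ j)) := by
    intro i j h
    simp only [Prod.mk.injEq] at h
    exact hdist i j h.1 h.2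
  have h1' : Selb.SmallAt (1 / 2)
      (fun p => a p - ∑ j, c j * (χ j (p : ZMod q) * Selb.osc (t j) p)) := by
    have e : (fun p : ℕ => a p - ∑ j, c j * (χ j (p : ZMod q) * Selb.osc (t j) p)) =
        fun p : ℕ => a p - ∑ j, c j * χ j (p : ZMod q) * (p : ℂ) ^ (-(t j * I)) := by
      funext p
      congr 1
      exact Finset.sum_congr rfl (fun j _ => by simp only [Selb.osc]; ring)
    rw [e]
    exact h1
  have hs := Selb.dir_relation (θ := t) (X := χ) (c := c) hS h1' h2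
  obtain ⟨C, hC⟩ := Selb.dir_asym hinj hS hs
  choose r hr using Selb.dir_rational hinj hS hs
  have hsumsq : ∑ j, ‖c j‖ ^ 2 = ((∑ j, (r j) ^ 2 : ℚ) : ℝ) := by
    push_cast
    refine Finset.sum_congr rfl (fun j _ => ?_)
    rw [hr j, ← Complex.ofReal_ratCast, Complex.norm_real, Real.norm_eq_abs, sq_abs]
  have hpole : ∀ j, χ j = 1 → ∃ n : ℤ, r j = n := by
    intro j hj
    obtain ⟨n, hn, _⟩ := Selb.dir_pole hinj hS hs hj
    exact ⟨n, Selb.rat_int_of (hr j) hn⟩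
  have hL : ∀ z : ℂ, ∃ n : ℤ, ∑ j, r j * Selb.LOrd (χ j) (z + t j * I) = n := by
    intro z
    obtain ⟨n, hn⟩ := Selb.gen_integral hS hs (v := fun j => Selb.LOrd (χ j) (z + t j * I))
      (AddSubgroup.subset_closure (Or.inl ⟨z, fun j => rfl⟩))
    refine ⟨n, ?_⟩
    have e1 : ((∑ j, r j * Selb.LOrd (χ j) (z + t j * I) : ℚ) : ℂ) = ((n : ℚ) : ℂ) := by
      push_cast
      rw [← hn]
      exact Finset.sum_congr rfl (fun j _ => by rw [hr j])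
    exact_mod_cast e1
  have hev : ∀ τ : ℝ, ∀ D : J → Prop,
      (∀ j, D j ↔ t j = τ ∧ χ j ≠ 1 ∧ (χ j).Even) →
      ∀ _ : DecidablePred D, ∃ n : ℕ, ∑ j with D j, r j = n := by
    intro τ D hD hdec
    obtain ⟨n, hn⟩ := Selb.dir_even hS hs τ D hD hdec
    exact ⟨n, Selb.rat_sum_cast hr D hn⟩
  have hod : ∀ τ : ℝ, ∀ D : J → Prop,
      (∀ j, D j ↔ t j = τ ∧ (χ j).Odd) →
      ∀ _ : DecidablePred D, ∃ n : ℕ, ∑ j with D j, r j = n := by
    intro τ D hD hdec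
    obtain ⟨n, hn⟩ := Selb.dir_odd hS hs τ D hD hdec
    exact ⟨n, Selb.rat_sum_cast hr D hn⟩
  refine ⟨r, hr, fun k => ?_, fun hcase => ?_⟩
  · have := Selb.fract_sum_ne_one hinj hev hod hpole hL k
    convert this using 2
  · have hcard : {j | χ j ≠ 1 ∧ Int.fract (r j) ≠ 0}.ncard ≤ 3 := by
      rcases hcase with h | ⟨h, hq⟩
      · exact h
      · have hi : Set.InjOn χ {j | χ j ≠ 1 ∧ Int.fract (r j) ≠ 0} :=
          fun i _ j _ hij => hdist i j (h i j) hij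
        rw [← hi.ncard_image]
        have hsub : χ '' {j | χ j ≠ 1 ∧ Int.fract (r j) ≠ 0} ⊆
            (Finset.univ.erase (1 : DirichletCharacter ℂ q) : Finset _) := by
          rintro _ ⟨j, hj, rfl⟩
          simp only [Finset.coe_erase, Finset.coe_univ, Set.mem_sdiff, Set.mem_univ,
            Set.mem_singleton_iff, true_and]
          exact hj.1
        refine (Set.ncard_le_ncard hsub (Finset.finite_toSet _)).trans ?_
        rw [Set.ncard_coe_finset, Finset.card_erase_of_mem (Finset.mem_univ _), Finset.card_univ,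
          ← Nat.card_eq_fintype_card,
          DirichletCharacter.card_eq_totient_of_hasEnoughRootsOfUnity]
        omega
    have hint := Selb.int_of_three hinj hev hod hpole hL hcard
    refine ⟨hint, ?_⟩
    choose n hn using hint
    refine ⟨∑ j, n j ^ 2, C, fun Y hY => ?_⟩
    have h3 := hC Y hY
    have h4 : ∑ j, ‖c j‖ ^ 2 = ((∑ j, n j ^ 2 : ℤ) : ℝ) := by
      rw [hsumsq]
      push_cast
      exact Finset.sum_congr rfl (fun j _ => by rw [hn j, Rat.cast_intCast])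
    rwa [h4] at h3

end Pool.Agent.Results.MP_d8a033_nt.ThreeCharacters
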